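import Pool.Agent.U433.RL.Core

/-!
# The law of the longest runs for all lengths, and for the runs inside a window
-/

set_option autoImplicit false

namespace Pool.Agent.U433.RL

open Finset Real MeasureTheory Filter Topology
open Pool.Agent.Y933.KD Pool.Agent.N639.FS Pool.Agent.N639.FG

lemma tt_mono {b : ℕ} (hb : 2 ≤ b) {C C' : Finset ℕ} {w w' : ℕ → ℕ} {N : ℝ} (hN : 0 ≤ N)
    (hC : C' ⊆ C) (hw : ∀ c ∈ C', w c ≤ w' c) : tt b C' w' N ≤ tt b C w N := by
  have hb1 : (1 : ℝ) ≤ b := by exact_mod_cast (by omega : 1 ≤ b)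
  unfold tt
  refine le_trans (sum_le_sum fun c hc => ?_)
    (sum_le_sum_of_subset_of_nonneg hC fun c _ _ =>
      mul_nonneg (coef_nonneg hb) (by positivity : (0 : ℝ) ≤ N / (b : ℝ) ^ w c))
  have h1 := coef_nonneg hb
  have h2 : (b : ℝ) ^ w c ≤ (b : ℝ) ^ w' c := pow_le_pow_right₀ hb1 (hw c hc)
  gcongr

/-- the law for all lengths -/
theorem all {b : ℕ} {Λ : ℕ → ℝ} {S : ℕ → Set (Measure ℝ)} (hb2 : 2 ≤ b) (hT : TG b Λ S)
    {ε : ℝ} (hε : 0 < ε) : ∃ N0 : ℕ, ∀ᶠ M : ℕ in atTop, ∀ P ∈ S M,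
    ∀ (C : Finset ℕ) (w : ℕ → ℕ) (N : ℕ), C ⊆ range b → N0 ≤ N → (N : ℝ) ≤ Λ M →
    |P.real {x | Free b C w N x} - exp (-tt b C w N)| ≤ ε := by
  have hb1 : 1 ≤ b := by omega
  have hbR : (2 : ℝ) ≤ b := by exact_mod_cast hb2
  have hbR1 : (1 : ℝ) < b := by linarith
  -- the constant
  obtain ⟨k1, hk1⟩ : ∃ κ : ℝ, 1 ≤ κ ∧ exp (-(κ / 2)) ≤ ε / 4 ∧ (b : ℝ) / κ ≤ ε / 4 := by
    have h1 : Tendsto (fun κ : ℝ => exp (-(κ / 2))) atTop (𝓝 0) :=
      Real.tendsto_exp_neg_atTop_nhds_zero.comp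
        (tendsto_id.atTop_div_const (by norm_num : (0 : ℝ) < 2))
    have h2 : Tendsto (fun κ : ℝ => (b : ℝ) / κ) atTop (𝓝 0) := tendsto_const_nhds.div_atTop tendsto_id
    obtain ⟨κ, h3, h4, h5⟩ := ((eventually_ge_atTop (1 : ℝ)).and
      ((h1.eventually_le_const (by positivity : 0 < ε / 4)).and
        (h2.eventually_le_const (by positivity : 0 < ε / 4)))).exists
    exact ⟨κ, h3, h4, h5⟩
  obtain ⟨hk, hk2, hk3⟩ := hk1
  have hkp : 0 < k1 := by linarith
  have hκ : 1 ≤ b * k1 := by nlinarith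
  obtain ⟨N1, hN1⟩ := near hb2 hT hκ (ε := ε / 4) (by positivity)
  obtain ⟨N2, hN2⟩ := exists_nat_ge k1
  refine ⟨N1 + N2 + 1, ?_⟩
  filter_upwards [hN1, hT.2.1] with M hM hprob P hP C w N hC hN hNL
  have := hprob P hP
  have hNN2 : k1 ≤ N := by
    refine hN2.trans ?_
    have : N2 ≤ N := by omega
    exact_mod_cast this
  have hNp : (0 : ℝ) < N := by linarith
  -- the two special lengths
  obtain ⟨lo, hlo1, hlo2⟩ := exists_nat_pow_near (x := (N : ℝ) / k1) (y := (b : ℝ))
    (by rwa [le_div_iff₀ hkp, one_mul]) hbR1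
  obtain ⟨hi, hhi1, hhi2⟩ := exists_nat_pow_near (x := k1 * (N : ℝ)) (y := (b : ℝ))
    (by nlinarith) hbR1
  rw [le_div_iff₀ hkp] at hlo1
  rw [div_lt_iff₀ hkp] at hlo2
  by_cases hshort : ∃ c ∈ C, (b : ℝ) ^ w c * k1 ≤ N
  · obtain ⟨c, hc, hcw⟩ := hshort
    have h1 : w c ≤ lo := by
      have h2 : (b : ℝ) ^ w c < (b : ℝ) ^ (lo + 1) := by
        have := lt_of_le_of_lt hcw hlo2
        exact lt_of_mul_lt_mul_right this hkp.le
      have := (pow_lt_pow_iff_right₀ hbR1).1 h2
      omega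
    have h2 : {x | Free b C w N x} ⊆ {x | Free b {c} (fun _ => lo) N x} := by
      intro x hx
      refine free_mono hb1 ?_ ?_ ?_ le_rfl hx
      · exact singleton_subset_iff.2 (hC hc)
      · exact singleton_subset_iff.2 hc
      · intro c' hc'
        rw [mem_singleton] at hc'
        rw [hc']
        exact h1
    have h3 := hM P hP {c} (fun _ => lo) N (singleton_subset_iff.2 (hC hc)) (by omega) hNL (by
      intro c' _
      refine ⟨?_, ?_⟩
      · rw [pow_succ] at hlo2
        nlinarith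
      · have h4 : (b : ℝ) ^ lo ≤ N := by
          have h5 : (0 : ℝ) < (b : ℝ) ^ lo := by positivity
          nlinarith
        nlinarith)
    have key : ∀ (C' : Finset ℕ) (w' : ℕ → ℕ), c ∈ C' → (b : ℝ) ^ w' c * k1 ≤ N →
        exp (-tt b C' w' N) ≤ ε / 4 := by
      intro C' w' hc' hw'
      refine le_trans (exp_le_exp.2 ?_) hk2
      rw [neg_le_neg_iff]
      have h4 : (1 - 1 / (b : ℝ)) * (N / (b : ℝ) ^ w' c) ≤ tt b C' w' N := by
        unfold tt
        exact single_le_sum (f := fun c => (1 - 1 / (b : ℝ)) * (N / (b : ℝ) ^ w' c))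
          (fun i _ => mul_nonneg (coef_nonneg hb2) (by positivity)) hc'
      refine le_trans ?_ h4
      have h5 : (1 : ℝ) / 2 ≤ 1 - 1 / (b : ℝ) := by
        have : 1 / (b : ℝ) ≤ 1 / 2 := one_div_le_one_div_of_le (by norm_num) hbR
        linarith
      have h6 : k1 ≤ N / (b : ℝ) ^ w' c := by
        rw [le_div_iff₀ (by positivity)]
        linarith
      nlinarith
    have h7 := key {c} (fun _ => lo) (mem_singleton_self c) hlo1
    have h8 := key C w hc hcw
    have h9 : P.real {x | Free b C w N x} ≤ P.real {x | Free b {c} (fun _ => lo) N x} :=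
      measureReal_mono h2
    have h10 : 0 ≤ P.real {x | Free b C w N x} := measureReal_nonneg
    have h11 := exp_pos (-tt b C w N)
    rw [abs_le] at h3 ⊢
    constructor <;> linarith [h3.1, h3.2]
  · push Not at hshort
    set w' : ℕ → ℕ := fun c => min (w c) (hi + 1) with hw'
    set C' := C.filter (fun c => w c ≤ hi + 1) with hC'
    have hC'C : C' ⊆ C := filter_subset _ _
    have hbh : (b : ℝ) ^ (hi + 1) ≤ b * k1 * N := by
      rw [pow_succ]
      nlinarith
    have a1 : ∀ c ∈ C, (N : ℝ) ≤ b * k1 * (b : ℝ) ^ w c := by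
      intro c hc
      have h1 := hshort c hc
      have h2 : (0 : ℝ) < (b : ℝ) ^ w c := by positivity
      nlinarith [mul_pos h2 hkp]
    have a2 : (N : ℝ) ≤ b * k1 * (b : ℝ) ^ (hi + 1) := by
      have h2 : (0 : ℝ) < (b : ℝ) ^ (hi + 1) := by positivity
      have h3 : (N : ℝ) ≤ (b : ℝ) ^ (hi + 1) := by nlinarith
      nlinarith
    have h1 := hM P hP C w' N hC (by omega) hNL (by
      intro c hc
      rw [hw']
      simp only
      rcases le_total (w c) (hi + 1) with h | h
      · rw [min_eq_left h]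
        refine ⟨a1 c hc, le_trans ?_ hbh⟩
        exact pow_le_pow_right₀ hbR1.le h
      · rw [min_eq_right h]
        exact ⟨a2, hbh⟩)
    have h2 := hM P hP C' w N (hC'C.trans hC) (by omega) hNL (by
      intro c hc
      rw [hC', mem_filter] at hc
      refine ⟨a1 c hc.1, le_trans ?_ hbh⟩
      exact pow_le_pow_right₀ hbR1.le hc.2)
    have h3 : P.real {x | Free b C w' N x} ≤ P.real {x | Free b C w N x} :=
      measureReal_mono fun x hx =>
        free_mono hb1 hC (Subset.refl _) (fun c _ => min_le_left _ _) le_rfl hx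
    have h4 : P.real {x | Free b C w N x} ≤ P.real {x | Free b C' w N x} :=
      measureReal_mono fun x hx =>
        free_mono hb1 (hC'C.trans hC) hC'C (fun c _ => le_rfl) le_rfl hx
    have h5 : tt b C w N ≤ tt b C w' N :=
      tt_mono hb2 hNp.le (Subset.refl _) (fun c _ => min_le_left _ _)
    have h6 : tt b C' w N ≤ tt b C w N := tt_mono hb2 hNp.le hC'C (fun c _ => le_rfl)
    have h7 : tt b C w' N - tt b C' w N ≤ ε / 4 := by
      have h8 : tt b C' w N = ∑ c ∈ C, if w c ≤ hi + 1 then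
          (1 - 1 / (b : ℝ)) * (N / (b : ℝ) ^ w c) else 0 := by
        unfold tt
        rw [hC', sum_filter]
      rw [h8]
      unfold tt
      rw [← sum_sub_distrib]
      calc ∑ c ∈ C, ((1 - 1 / (b : ℝ)) * (N / (b : ℝ) ^ w' c) - if w c ≤ hi + 1 then
            (1 - 1 / (b : ℝ)) * (N / (b : ℝ) ^ w c) else 0) ≤ ∑ _c ∈ C, 1 / k1 := by
            refine sum_le_sum fun c hc => ?_
            rw [hw']
            simp only
            split_ifs with h
            · rw [min_eq_left h, sub_self]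
              positivity
            · rw [min_eq_right (by omega), sub_zero]
              have g1 := coef_le (b := b)
              have g2 : (N : ℝ) / (b : ℝ) ^ (hi + 1) ≤ 1 / k1 := by
                rw [div_le_div_iff₀ (by positivity) hkp]
                linarith
              calc (1 - 1 / (b : ℝ)) * (N / (b : ℝ) ^ (hi + 1)) ≤
                    1 * (N / (b : ℝ) ^ (hi + 1)) := by gcongr
                _ ≤ 1 / k1 := by rwa [one_mul]
        _ = C.card * (1 / k1) := by rw [sum_const, nsmul_eq_mul]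
        _ ≤ b * (1 / k1) := by
            have g3 : (C.card : ℝ) ≤ b := by
              have := card_le_card hC
              rw [card_range] at this
              exact_mod_cast this
            gcongr
        _ ≤ ε / 4 := by rw [mul_one_div]; exact hk3
    have h8 : |exp (-tt b C w' N) - exp (-tt b C' w N)| ≤ ε / 4 := by
      refine (exp_lip (tt_nonneg hb2 _ _ hNp.le) (tt_nonneg hb2 _ _ hNp.le)).trans ?_
      rw [abs_of_nonneg (by linarith)]
      exact h7
    have h9 : exp (-tt b C w' N) ≤ exp (-tt b C w N) := exp_le_exp.2 (by linarith)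
    have h10 : exp (-tt b C w N) ≤ exp (-tt b C' w N) := exp_le_exp.2 (by linarith)
    rw [abs_le] at h1 h2 h8 ⊢
    constructor <;> linarith [h1.1, h1.2, h2.1, h2.2, h8.1, h8.2]

/-- no run of `w c` digits `c ∈ C` lies inside the first `N` digits -/
def Inside (b : ℕ) (C : Finset ℕ) (w : ℕ → ℕ) (N : ℕ) (x : ℝ) : Prop :=
  ∀ c ∈ C, ∀ n, n + w c ≤ N → wd b (w c) n x ≠ rp b (w c) c

lemma measurableSet_Inside (b : ℕ) (C : Finset ℕ) (w : ℕ → ℕ) (N : ℕ) :
    MeasurableSet {x | Inside b C w N x} := by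
  have e : {x | Inside b C w N x} =
      ⋂ c ∈ C, ⋂ n, {x | n + w c ≤ N → wd b (w c) n x ≠ rp b (w c) c} := by
    ext x
    simp only [Inside, Set.mem_ofPred_eq, Set.mem_iInter]
  rw [e]
  refine Finset.measurableSet_biInter _ fun c _ => MeasurableSet.iInter fun n => ?_
  by_cases h : n + w c ≤ N
  · have e2 : {x | n + w c ≤ N → wd b (w c) n x ≠ rp b (w c) c} =
        {x | wd b (w c) n x ≠ rp b (w c) c} := by
      ext x; simp [h]
    rw [e2]
    exact (measurable_wd b (w c) n) (measurableSet_singleton _).compl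
  · have e2 : {x | n + w c ≤ N → wd b (w c) n x ≠ rp b (w c) c} = Set.univ := by
      ext x; simp [h]
    rw [e2]
    exact MeasurableSet.univ

lemma exp_scale {T δ : ℝ} (hT : 0 ≤ T) (hδ : 0 ≤ δ) (hδ1 : δ ≤ 1 / 2) :
    exp (-((1 - δ) * T)) ≤ exp (-T) + δ := by
  have h1 : exp (-T) = exp (-((1 - δ) * T)) * exp (-(δ * T)) := by
    rw [← exp_add]; congr 1; ring
  have h2 : 1 - δ * T ≤ exp (-(δ * T)) := by
    have := add_one_le_exp (-(δ * T))
    linarith
  have h3 : exp (-((1 - δ) * T)) * T ≤ 1 := by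
    have h4 : exp (-((1 - δ) * T)) ≤ exp (-(T / 2)) := exp_le_exp.2 (by nlinarith)
    have h5 : T ≤ exp (T / 2) := by
      have := quadratic_le_exp_of_nonneg (show 0 ≤ T / 2 by positivity)
      nlinarith [sq_nonneg (T - 2)]
    calc exp (-((1 - δ) * T)) * T ≤ exp (-(T / 2)) * exp (T / 2) := by gcongr
      _ = 1 := by rw [← exp_add]; simp
  have h6 : 0 < exp (-((1 - δ) * T)) := exp_pos _
  rw [h1]
  nlinarith

/-- the law for the runs inside a window -/
theorem inside {b : ℕ} {Λ : ℕ → ℝ} {S : ℕ → Set (Measure ℝ)} (hb2 : 2 ≤ b) (hT : TG b Λ S)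
    {ε : ℝ} (hε : 0 < ε) : ∃ N0 : ℕ, ∀ᶠ M : ℕ in atTop, ∀ P ∈ S M,
    ∀ (C : Finset ℕ) (w : ℕ → ℕ) (N : ℕ), C ⊆ range b → N0 ≤ N → (N : ℝ) ≤ Λ M →
    |P.real {x | Inside b C w N x} - exp (-tt b C w N)| ≤ ε := by
  have hb1 : 1 ≤ b := by omega
  have hbR : (2 : ℝ) ≤ b := by exact_mod_cast hb2
  obtain ⟨N1, hN1⟩ := all hb2 hT (ε := ε / 4) (by positivity)
  set δ : ℝ := min (ε / 4) (1 / 2) with hδ
  have hδ0 : 0 < δ := lt_min (by positivity) (by norm_num)
  have hδ1 : δ ≤ 1 / 2 := min_le_right _ _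
  have hδ2 : δ ≤ ε / 4 := min_le_left _ _
  have hlim : Tendsto (fun k : ℕ => (k : ℝ) / 2 ^ k) atTop (𝓝 0) := by
    have := tendsto_pow_const_div_const_pow_of_one_lt 1 (by norm_num : (1 : ℝ) < 2)
    simpa using this
  obtain ⟨k0, hk0⟩ := eventually_atTop.1
    (hlim.eventually_le_const (show 0 < ε * δ / (4 * b) by positivity))
  obtain ⟨N2, hN2⟩ := exists_nat_ge ((k0 : ℝ) / δ)
  refine ⟨2 * N1 + N2 + 2, ?_⟩
  filter_upwards [hN1, hT.2.1] with M hM hprob P hP C w N hC hN hNL
  have := hprob P hP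
  have hNp : (0 : ℝ) < N := by
    have : 0 < N := by omega
    exact_mod_cast this
  set h := ⌊δ * N⌋₊ with hh
  have hh1 : (h : ℝ) ≤ δ * N := Nat.floor_le (by positivity)
  have hh2 : δ * N < h + 1 := Nat.lt_floor_add_one _
  have hh3 : 2 * h ≤ N := by
    have : (2 : ℝ) * h ≤ N := by nlinarith
    exact_mod_cast this
  -- lower bound
  have l1 : P.real {x | Free b C w N x} ≤ P.real {x | Inside b C w N x} := by
    refine measureReal_mono fun x hx c hc n hn => ?_
    have hx' : Free b C w N x := hx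
    by_cases hw0 : w c = 0
    · exfalso
      refine hx' c hc 0 (by omega) ?_
      rw [hw0]
      have h1 := wd_lt hb1 0 0 x
      have h2 := rp_lt (mem_range.1 (hC hc)) 0
      rw [pow_zero] at h1 h2
      omega
    · exact hx' c hc n (by omega)
  have l2 := hM P hP C w N hC (by omega) hNL
  -- upper bound
  set C' := C.filter (fun c => w c ≤ h) with hC'
  have hC'C : C' ⊆ C := filter_subset _ _
  have u1 : P.real {x | Inside b C w N x} ≤ P.real {x | Free b C' w (N - h) x} := by
    refine measureReal_mono fun x hx c hc n hn => ?_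
    rw [hC', mem_filter] at hc
    exact hx c hc.1 n (by omega)
  have hNh : ((N - h : ℕ) : ℝ) = (N : ℝ) - h := by rw [Nat.cast_sub (by omega)]
  have u2 := hM P hP C' w (N - h) (hC'C.trans hC) (by omega) (by
    rw [hNh]
    have : (0 : ℝ) ≤ h := Nat.cast_nonneg h
    linarith)
  have u3 : (1 - δ) * tt b C' w N ≤ tt b C' w ((N - h : ℕ) : ℝ) := by
    unfold tt
    rw [mul_sum]
    refine sum_le_sum fun c _ => ?_
    rw [hNh]
    have g1 := coef_nonneg hb2
    have g2 : (1 - δ) * N ≤ N - h := by linarith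
    calc (1 - δ) * ((1 - 1 / (b : ℝ)) * (N / (b : ℝ) ^ w c)) =
          (1 - 1 / (b : ℝ)) * (((1 - δ) * N) / (b : ℝ) ^ w c) := by ring
      _ ≤ (1 - 1 / (b : ℝ)) * ((N - h) / (b : ℝ) ^ w c) := by gcongr
  have u4 : tt b C w N - tt b C' w N ≤ ε / 4 := by
    have h8 : tt b C' w N = ∑ c ∈ C, if w c ≤ h then
        (1 - 1 / (b : ℝ)) * (N / (b : ℝ) ^ w c) else 0 := by
      unfold tt
      rw [hC', sum_filter]
    rw [h8]
    unfold tt
    rw [← sum_sub_distrib]
    calc ∑ c ∈ C, ((1 - 1 / (b : ℝ)) * (N / (b : ℝ) ^ w c) - if w c ≤ h then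
          (1 - 1 / (b : ℝ)) * (N / (b : ℝ) ^ w c) else 0) ≤ ∑ _c ∈ C, ε / (4 * b) := by
          refine sum_le_sum fun c hc => ?_
          split_ifs with hwh
          · rw [sub_self]
            positivity
          · rw [sub_zero]
            have g0 : h + 1 ≤ w c := by omega
            have g0' : (h : ℝ) + 1 ≤ w c := by exact_mod_cast g0
            have g1 : δ * N ≤ w c := by linarith
            have g2 : k0 ≤ w c := by
              have g3 : (N2 : ℝ) ≤ N := by
                have : N2 ≤ N := by omega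
                exact_mod_cast this
              have g4 : (k0 : ℝ) / δ ≤ N := hN2.trans g3
              rw [div_le_iff₀ hδ0] at g4
              have g5 : (k0 : ℝ) ≤ w c := by linarith
              exact_mod_cast g5
            have g3 := hk0 (w c) g2
            have g4 : (N : ℝ) / (b : ℝ) ^ w c ≤ ε / (4 * b) := by
              have g5 : (2 : ℝ) ^ w c ≤ (b : ℝ) ^ w c := by gcongr
              have g6 : (N : ℝ) ≤ w c / δ := by
                rw [le_div_iff₀ hδ0]; linarith
              calc (N : ℝ) / (b : ℝ) ^ w c ≤ (w c / δ) / 2 ^ w c := by gcongr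
                _ = (w c / 2 ^ w c) / δ := by ring
                _ ≤ (ε * δ / (4 * b)) / δ := by gcongr
                _ = ε / (4 * b) := by field_simp
            have g5 := coef_le (b := b)
            calc (1 - 1 / (b : ℝ)) * (N / (b : ℝ) ^ w c) ≤ 1 * (N / (b : ℝ) ^ w c) := by gcongr
              _ ≤ ε / (4 * b) := by rwa [one_mul]
      _ = C.card * (ε / (4 * b)) := by rw [sum_const, nsmul_eq_mul]
      _ ≤ b * (ε / (4 * b)) := by
          have g3 : (C.card : ℝ) ≤ b := by
            have := card_le_card hC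
            rw [card_range] at this
            exact_mod_cast this
          gcongr
      _ = ε / 4 := by field_simp
  have u5 : tt b C' w N ≤ tt b C w N := tt_mono hb2 hNp.le hC'C (fun c _ => le_rfl)
  have u6 : exp (-tt b C' w ((N - h : ℕ) : ℝ)) ≤ exp (-tt b C' w N) + δ := by
    refine le_trans (exp_le_exp.2 (neg_le_neg u3)) ?_
    exact exp_scale (tt_nonneg hb2 _ _ hNp.le) hδ0.le hδ1
  have u7 : |exp (-tt b C' w N) - exp (-tt b C w N)| ≤ ε / 4 := by
    refine (exp_lip (tt_nonneg hb2 _ _ hNp.le) (tt_nonneg hb2 _ _ hNp.le)).trans ?_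
    rw [abs_of_nonpos (by linarith)]
    linarith
  rw [abs_le] at l2 u2 u7 ⊢
  constructor <;> linarith [l2.1, l2.2, u2.1, u2.2, u7.1, u7.2]

end Pool.Agent.U433.RL
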