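import Pool.Agent.U433.RL.All
import Pool.Agent.N639.FH.FinM
import Pool.Agent.U864.DL.Basic

/-!
# From families of measures to columns of digits
-/

set_option autoImplicit false

namespace Pool.Agent.U433.RL

open Finset Real MeasureTheory Filter Topology
open Pool.Agent.Y933.KD Pool.Agent.N639.FS Pool.Agent.N639.FG
open Pool.Agent.N639.FH (tg_SX tg_half' JJ mem_SX)
open Pool.Agent.Y951.TU (mix mix_inj mix_lt mix_surj tw Psi SX unif comb measurable_Psi wd_Psi
  real_unif tw_lt prod_pos')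
open Pool.Agent.U864.DL (digit digit_eq wd_eq_rp_iff)

variable {r d : ℕ}

/-- `l` consecutive columns `c` inside the `N` columns of digits which follow the first `s j` digits
after the point of `x j` -/
def Block (b s : Fin r → ℕ) (N l : ℕ) (c : Fin r → ℕ) (x : Fin r → ℝ) : Prop :=
  ∃ n, n + l ≤ N ∧ ∀ i < l, ∀ j, digit (b j) (s j + (n + i)) (x j) = c j

/-- the columns of digits -/
def cols (b : Fin r → ℕ) : Finset (Fin r → ℕ) := Fintype.piFinset fun j => range (b j)

lemma mem_cols {b : Fin r → ℕ} {c : Fin r → ℕ} : c ∈ cols b ↔ ∀ j, c j < b j := by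
  simp [cols, Fintype.mem_piFinset]

/-- the columns as digits in base `∏ b j` -/
lemma mix_image {b : Fin r → ℕ} (hb : ∀ j, 1 ≤ b j) :
    (cols b).image (mix b 1) = range (∏ j, b j) := by
  ext v
  rw [mem_image, mem_range]
  constructor
  · rintro ⟨c, _, rfl⟩
    simpa using mix_lt hb 1 c
  · intro hv
    obtain ⟨c, hc, he⟩ := mix_surj hb 1 v (by simpa using hv)
    exact ⟨c, mem_cols.2 (by simpa using hc), he⟩

lemma mix_injOn {b : Fin r → ℕ} (hb : ∀ j, 1 ≤ b j) :
    Set.InjOn (mix b 1) (cols b : Set (Fin r → ℕ)) := by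
  intro c hc c' hc' he
  rw [mem_coe, mem_cols] at hc hc'
  exact mix_inj hb 1 c c' (by simpa using hc) (by simpa using hc') he

lemma wd_rp_Psi {b : Fin r → ℕ} (hb : ∀ j, 2 ≤ b j) {n w J : ℕ} (h : n + w ≤ J)
    (s : Fin r → ℕ) (x : Fin r → ℝ) {c : Fin r → ℕ} (hc : c ∈ cols b) :
    wd (∏ j, b j) w n (Psi b J s x) = rp (∏ j, b j) w (mix b 1 c) ↔
      ∀ i < w, ∀ j, digit (b j) (s j + (n + i)) (x j) = c j := by
  have hb1 : ∀ j, 1 ≤ b j := fun j => by have := hb j; omega
  rw [wd_eq_rp_iff (by simpa using mix_lt hb1 1 c)]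
  refine forall₂_congr fun i hi => ?_
  rw [digit_eq, wd_Psi hb1 (by omega) s x]
  constructor
  · intro he j
    have h1 := mix_inj hb1 1 _ _ (tw_lt hb1 _ _ _) (by simpa using mem_cols.1 hc) he
    have h2 := congrFun h1 j
    rw [digit_eq]
    exact h2
  · intro he
    congr 1
    funext j
    have h2 := he j
    rw [digit_eq] at h2
    exact h2

open Classical in
/-- the joint law of the longest blocks of all the columns -/
theorem block_law (hr : 1 ≤ r) (Ω : Fin r → Fin d → ℝ) (halg : ∀ j t, IsAlgebraic ℚ (Ω j t))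
    (hind : ∀ c : Fin r → ℤ, c ≠ 0 → ∃ t, Irrational (∑ j, c j * Ω j t)) {b : Fin r → ℕ}
    (hb : ∀ j, 2 ≤ b j) {A : ℝ} (hA : 0 < A) {ε : ℝ} (hε : 0 < ε) : ∃ N0 : ℕ,
    ∀ᶠ M : ℕ in atTop, ∀ (y : Fin r → ℝ) (s : Fin r → ℕ) (N : ℕ), N0 ≤ N →
      (∀ j, (s j : ℝ) + N ≤ A * log M) → ∀ l : (Fin r → ℕ) → ℕ,
      |(((box d M).filter fun m => ∀ c ∈ cols b, ¬ Block b s N (l c) c (comb Ω y m)).card : ℝ) /
          (M : ℝ) ^ d -
        exp (-∑ c ∈ cols b, (1 - 1 / ((∏ j, b j : ℕ) : ℝ)) *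
          (N / ((∏ j, b j : ℕ) : ℝ) ^ l c))| ≤ ε := by
  have hb1 : ∀ j, 1 ≤ b j := fun j => by have := hb j; omega
  have hT := tg_SX hr Ω halg hind hb hA
  obtain ⟨N0, hN0⟩ := inside (Pool.Agent.N639.FH.two_le_prod hr hb) (tg_half' hT) hε
  refine ⟨N0, ?_⟩
  filter_upwards [hN0, eventually_ge_atTop 1] with M hM hM1 y s N hN hsN l
  have hlM : 0 ≤ log (M : ℝ) := Real.log_natCast_nonneg M
  have hs : ∀ j, (s j : ℝ) ≤ A * log M := fun j => by
    have h3 := hsN j
    have h4 : (0 : ℝ) ≤ N := Nat.cast_nonneg N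
    linarith
  have hNA : (N : ℝ) ≤ A * log M := by
    have h3 := hsN ⟨0, hr⟩
    have h4 : (0 : ℝ) ≤ s ⟨0, hr⟩ := Nat.cast_nonneg _
    linarith
  have hNJ : N ≤ JJ A M := by
    have h11 : (N : ℝ) ≤ JJ A M := by
      refine le_trans ?_ (Nat.le_ceil _)
      nlinarith [mul_nonneg hA.le hlM]
    exact_mod_cast h11
  -- the lengths as a function of the mixed digit
  set w : ℕ → ℕ := fun v => if h : ∃ c ∈ cols b, mix b 1 c = v then l h.choose else 0 with hw
  have hwc : ∀ c ∈ cols b, w (mix b 1 c) = l c := by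
    intro c hc
    have h1 : ∃ c' ∈ cols b, mix b 1 c' = mix b 1 c := ⟨c, hc, rfl⟩
    rw [hw]
    simp only
    rw [dif_pos h1]
    have h2 := h1.choose_spec
    rw [mix_injOn hb1 h2.1 hc h2.2]
  have key := hM _ (mem_SX Ω b y s hs) (range (∏ j, b j)) w N (Subset.refl _) hN hNA
  have hm := measurableSet_Inside (∏ j, b j) (range (∏ j, b j)) w N
  rw [map_measureReal_apply (measurable_Psi b (JJ A M) s) hm,
    real_unif _ _ ((measurable_Psi b (JJ A M) s) hm), card_box] at key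
  have h6 : ((box d M).filter fun m => comb Ω y m ∈ Psi b (JJ A M) s ⁻¹'
      {x | Inside (∏ j, b j) (range (∏ j, b j)) w N x}) =
      (box d M).filter fun m => ∀ c ∈ cols b, ¬ Block b s N (l c) c (comb Ω y m) := by
    refine filter_congr fun m _ => ?_
    rw [Set.mem_preimage, Set.mem_ofPred_eq]
    unfold Inside
    rw [← mix_image hb1]
    simp only [mem_image, forall_exists_index, and_imp, forall_apply_eq_imp_iff₂]
    refine forall₂_congr fun c hc => ?_
    rw [hwc c hc]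
    unfold Block
    push Not
    refine forall₂_congr fun n hn => ?_
    rw [Ne, wd_rp_Psi hb (by omega) s _ hc]
    push Not
    rfl
  rw [h6] at key
  have h7 : tt (∏ j, b j) (range (∏ j, b j)) w N =
      ∑ c ∈ cols b, (1 - 1 / ((∏ j, b j : ℕ) : ℝ)) * (N / ((∏ j, b j : ℕ) : ℝ) ^ l c) := by
    unfold tt
    rw [← mix_image hb1, sum_image (mix_injOn hb1)]
    exact sum_congr rfl fun c hc => by rw [hwc c hc]
  rw [h7] at key
  push_cast at key ⊢
  exact key

end Pool.Agent.U433.RL
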