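import Pool.Agent.U433.RL.Words

/-!
# The law of the longest runs of the digits, for families of measures
-/

set_option autoImplicit false

namespace Pool.Agent.U433.RL

open Finset Real MeasureTheory Filter Topology
open Pool.Agent.Y933.KD Pool.Agent.N639.FS Pool.Agent.N639.FG

lemma measurableSet_Free (b : ℕ) (C : Finset ℕ) (w : ℕ → ℕ) (N : ℕ) :
    MeasurableSet {x | Free b C w N x} := by
  have e : {x | Free b C w N x} =
      ⋂ c ∈ C, ⋂ n ∈ range N, {x | wd b (w c) n x ≠ rp b (w c) c} := by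
    ext x
    simp only [Free, Set.mem_ofPred_eq, Set.mem_iInter, mem_range]
  rw [e]
  refine Finset.measurableSet_biInter _ fun c _ => Finset.measurableSet_biInter _ fun n _ => ?_
  exact (measurable_wd b (w c) n) (measurableSet_singleton _).compl

lemma measurableSet_wd (b w n c : ℕ) : MeasurableSet {x | wd b w n x = c} :=
  (measurable_wd b w n) (measurableSet_singleton _)

/-- the word at the first place -/
lemma first_word {b : ℕ} {Λ : ℕ → ℝ} {S : ℕ → Set (Measure ℝ)} (hb2 : 2 ≤ b) (hT : TG b Λ S)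
    {κ : ℝ} (hκ : 0 < κ) {ε : ℝ} (hε : 0 < ε) : ∃ N0 : ℕ, ∀ᶠ M : ℕ in atTop, ∀ P ∈ S M,
    ∀ w N v : ℕ, N0 ≤ N → (N : ℝ) ≤ Λ M → (N : ℝ) ≤ κ * (b : ℝ) ^ w → (b : ℝ) ^ w ≤ κ * N →
    P.real {x | wd b w 0 x = v} ≤ ε := by
  have hb1 : 1 ≤ b := by omega
  obtain ⟨N0, hN0⟩ := exists_nat_ge (2 * κ / ε + 1)
  refine ⟨N0, ?_⟩
  have hL := hT.1
  filter_upwards [trg hb1 hT 1 2 1, hL.eventually_ge_atTop κ, hL.eventually_ge_atTop (2 / ε),
    hL.eventually_ge_atTop 1, hT.2.1] with M hM h1 h2 h3 h4 P hP w N v hN hNL g1 g2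
  have := h4 P hP
  have hNR : 2 * κ / ε + 1 ≤ (N : ℝ) := hN0.trans (by exact_mod_cast hN)
  have hNp : (0 : ℝ) < N := by
    have : 0 < 2 * κ / ε := by positivity
    linarith
  have hbw : (0 : ℝ) < (b : ℝ) ^ w := by positivity
  have key := hM P hP w 1 (by exact_mod_cast h3) (by
    calc (b : ℝ) ^ w ≤ κ * N := g2
      _ ≤ Λ M * Λ M := by gcongr
      _ = (Λ M) ^ 2 := by ring) (fun _ u => if u 0 = v then 1 else 0) (fun n c => by
        split_ifs <;> simp)
  have e1 : ∀ x : ℝ, ∑ n ∈ Fintype.piFinset (fun _ : Fin 1 => range 1),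
      (fun (_ u : Fin 1 → ℕ) => if u 0 = v then (1 : ℝ) else 0) n (fun i => wd b w (n i) x) =
      cnd b w 0 v x := by
    intro x
    have h5 : Fintype.piFinset (fun _ : Fin 1 => range 1) = {fun _ => 0} := by
      rw [range_one, Fintype.piFinset_singleton]
    rw [h5, sum_singleton]
    rfl
  simp only [e1] at key
  have e2 : ∫ x, cnd b w 0 v x ∂P = P.real {x | wd b w 0 x = v} := by
    rw [← integral_indicator_one (measurableSet_wd b w 0 v)]
    congr 1
    funext x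
    unfold cnd
    by_cases hx : wd b w 0 x = v
    · rw [if_pos hx, Set.indicator_of_mem (show x ∈ {x | wd b w 0 x = v} from hx)]
      rfl
    · rw [if_neg hx, Set.indicator_of_notMem (show x ∉ {x | wd b w 0 x = v} from hx)]
  have e3 : ∫ x, cnd b w 0 v x ∂Leb ≤ 1 / (b : ℝ) ^ w := by
    by_cases hv : v < b ^ w
    · exact (int_cnd hb1 w 0 hv).le
    · have h5 : ∀ x, cnd b w 0 v x = 0 := by
        intro x
        unfold cnd
        rw [if_neg]
        have := wd_lt hb1 w 0 x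
        omega
      simp only [h5, integral_zero]
      positivity
  rw [e2] at key
  have h6 := (abs_le.1 key).2
  have h7 : 1 / (b : ℝ) ^ w ≤ ε / 2 := by
    rw [div_le_div_iff₀ hbw (by norm_num)]
    have h8 : 2 * κ / ε ≤ N := by linarith
    rw [div_le_iff₀ hε] at h8
    have h9 : N * ε ≤ κ * (b : ℝ) ^ w * ε := by gcongr
    have h10 : 2 * κ ≤ κ * ((b : ℝ) ^ w * ε) := by linarith
    have h11 : 2 ≤ (b : ℝ) ^ w * ε := by
      by_contra hcon
      push Not at hcon
      nlinarith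
    linarith
  have h8 : ((Λ M) ^ 1)⁻¹ ≤ ε / 2 := by
    rw [pow_one, inv_le_comm₀ (by linarith) (by positivity)]
    rw [inv_div]
    exact h2
  linarith

lemma exp_lip {x y : ℝ} (hx : 0 ≤ x) (hy : 0 ≤ y) : |exp (-x) - exp (-y)| ≤ |x - y| := by
  wlog h : x ≤ y with H
  · rw [abs_sub_comm, abs_sub_comm x y]
    exact H hy hx (by linarith)
  · have h1 : exp (-y) ≤ exp (-x) := exp_le_exp.2 (by linarith)
    rw [abs_of_nonneg (by linarith), abs_of_nonpos (by linarith)]
    have h2 : exp (-y) = exp (-x) * exp (-(y - x)) := by rw [← exp_add]; congr 1; ring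
    have h3 : 1 - (y - x) ≤ exp (-(y - x)) := by
      have := add_one_le_exp (-(y - x))
      linarith
    have h4 : exp (-x) ≤ 1 := exp_le_one_iff.2 (by linarith)
    have h5 : 0 < exp (-x) := exp_pos _
    rw [h2]
    nlinarith

/-- the exponent of the law -/
noncomputable def tt (b : ℕ) (C : Finset ℕ) (w : ℕ → ℕ) (N : ℝ) : ℝ :=
  ∑ c ∈ C, (1 - 1 / (b : ℝ)) * (N / (b : ℝ) ^ w c)

lemma coef_nonneg {b : ℕ} (hb : 2 ≤ b) : (0 : ℝ) ≤ 1 - 1 / (b : ℝ) := by
  have : (2 : ℝ) ≤ b := by exact_mod_cast hb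
  rw [sub_nonneg, div_le_one (by linarith)]
  linarith

lemma coef_le {b : ℕ} : 1 - 1 / (b : ℝ) ≤ 1 := by
  have : (0 : ℝ) ≤ 1 / (b : ℝ) := by positivity
  linarith

lemma tt_nonneg {b : ℕ} (hb : 2 ≤ b) (C : Finset ℕ) (w : ℕ → ℕ) {N : ℝ} (hN : 0 ≤ N) :
    0 ≤ tt b C w N := by
  unfold tt
  exact sum_nonneg fun c _ => mul_nonneg (coef_nonneg hb) (by positivity)

/-- the law for lengths near `log_b N` -/
theorem near {b : ℕ} {Λ : ℕ → ℝ} {S : ℕ → Set (Measure ℝ)} (hb2 : 2 ≤ b) (hT : TG b Λ S)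
    {κ : ℝ} (hκ1 : 1 ≤ κ) {ε : ℝ} (hε : 0 < ε) : ∃ N0 : ℕ, ∀ᶠ M : ℕ in atTop, ∀ P ∈ S M,
    ∀ (C : Finset ℕ) (w : ℕ → ℕ) (N : ℕ), C ⊆ range b → N0 ≤ N → (N : ℝ) ≤ Λ M →
    (∀ c ∈ C, (N : ℝ) ≤ κ * (b : ℝ) ^ w c ∧ (b : ℝ) ^ w c ≤ κ * N) →
    |P.real {x | Free b C w N x} - exp (-tt b C w N)| ≤ ε := by
  have hb1 : 1 ≤ b := by omega
  have hbR : (2 : ℝ) ≤ b := by exact_mod_cast hb2
  have hκ : 0 < κ := by linarith
  -- the number of words is bounded
  obtain ⟨R, hR⟩ := exists_nat_ge ((b : ℝ) * (b * κ ^ 2))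
  obtain ⟨D, hD⟩ := exists_nat_ge (κ ^ 2)
  choose N1 hN1 using fun r : ℕ => cg3 hb2 hT r 0 (2 * b * κ) (ε := ε / 4) (by positivity)
    (by positivity)
  obtain ⟨N2, hN2⟩ := first_word hb2 hT hκ (ε := ε / (4 * b)) (by positivity)
  obtain ⟨N3, hN3⟩ := exists_nat_ge (4 * b * κ / ε)
  obtain ⟨N4, hN4⟩ := exists_nat_ge (κ * (b : ℝ) ^ (2 * D + 3))
  refine ⟨((range (R + 1)).sup N1 + 2) + N2 + N3 + N4, ?_⟩
  have hev : ∀ᶠ M : ℕ in atTop, ∀ r ∈ range (R + 1), ∀ P ∈ S M, ∀ (w N : ℕ) (W : Finset ℕ),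
      N1 r ≤ N → (N : ℝ) ≤ Λ M → (N : ℝ) ≤ (2 * b * κ) * (b : ℝ) ^ w →
      (b : ℝ) ^ w ≤ (2 * b * κ) * N → W ⊆ range (b ^ w) → W.card = r → NoOv b w W →
      |P.real {x | ((range N).filter (fun n => wd b w n x ∈ W)).card = 0} -
        exp (-(r * (N / (b : ℝ) ^ w))) * (r * (N / (b : ℝ) ^ w)) ^ 0 / (Nat.factorial 0)| ≤ ε / 4 :=
    (eventually_all_finset _).2 fun r _ => hN1 r
  filter_upwards [hev, hN2, hT.2.1] with M hM h2 hprob P hP C w N hC hN hNL hw
  have := hprob P hP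
  rcases C.eq_empty_or_nonempty with rfl | hCne
  · have e1 : {x | Free b ∅ w N x} = Set.univ := by
      ext x; simp [Free]
    rw [e1, probReal_univ]
    simp [tt]
    exact hε.le
  -- the longest length
  obtain ⟨c0, hc0, hmax⟩ := exists_max_image C w hCne
  set H := w c0 with hH
  have hNp : (0 : ℝ) < N := by
    have : 0 < N := by omega
    exact_mod_cast this
  have hbH := hw c0 hc0
  have hk : ∀ c ∈ C, (b : ℝ) ^ (H - w c) ≤ κ ^ 2 := by
    intro c hc
    have g1 := (hw c hc).1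
    have g2 := hbH.2
    have g3 : (b : ℝ) ^ (H - w c) * (b : ℝ) ^ w c = (b : ℝ) ^ H := by
      rw [← pow_add]; congr 1; have := hmax c hc; omega
    have g4 : (0 : ℝ) < (b : ℝ) ^ w c := by positivity
    have g5 : (b : ℝ) ^ (H - w c) * (b : ℝ) ^ w c ≤ κ ^ 2 * (b : ℝ) ^ w c := by
      rw [g3]
      calc (b : ℝ) ^ H ≤ κ * N := g2
        _ ≤ κ * (κ * (b : ℝ) ^ w c) := by gcongr
        _ = κ ^ 2 * (b : ℝ) ^ w c := by ring
    exact le_of_mul_le_mul_right g5 g4
  have hkD : ∀ c ∈ C, H - w c ≤ D := by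
    intro c hc
    have g1 : ((H - w c : ℕ) : ℝ) ≤ (b : ℝ) ^ (H - w c) := by
      have : H - w c < 2 ^ (H - w c) := Nat.lt_two_pow_self
      have g2 : 2 ^ (H - w c) ≤ b ^ (H - w c) := Nat.pow_le_pow_left hb2 _
      exact_mod_cast this.le.trans g2
    exact_mod_cast g1.trans ((hk c hc).trans hD)
  have hHbig : 2 * D + 3 ≤ H := by
    have g1 : (N4 : ℝ) ≤ N := by
      have : N4 ≤ N := by omega
      exact_mod_cast this
    have g2 : κ * (b : ℝ) ^ (2 * D + 3) ≤ κ * (b : ℝ) ^ H := (hN4.trans g1).trans hbH.1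
    have g3 : (b : ℝ) ^ (2 * D + 3) ≤ (b : ℝ) ^ H := le_of_mul_le_mul_left g2 hκ
    exact (pow_le_pow_iff_right₀ (by linarith)).1 g3
  have h1' : ∀ c ∈ C, w c ≤ H := hmax
  have h2' : ∀ c ∈ C, H + 3 ≤ 2 * w c := by
    intro c hc
    have := hkD c hc
    have := hmax c hc
    omega
  have h3' : ∀ c ∈ C, 1 ≤ w c := fun c hc => by have := h2' c hc; omega
  set W := C.biUnion (WW b H w) with hW
  set r := W.card with hr
  have hrR : r ≤ R := by
    have g1 : (r : ℝ) ≤ R := by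
      refine le_trans ?_ hR
      rw [hr, hW, card_WWs hC h1' h3']
      push_cast
      calc ∑ c ∈ C, ((b - 1 : ℕ) : ℝ) * (b : ℝ) ^ (H - w c) ≤ ∑ _c ∈ C, (b : ℝ) * κ ^ 2 := by
            refine sum_le_sum fun c hc => ?_
            have g2 : ((b - 1 : ℕ) : ℝ) ≤ b := by exact_mod_cast Nat.sub_le b 1
            have := hk c hc
            gcongr
        _ = C.card * ((b : ℝ) * κ ^ 2) := by rw [sum_const, nsmul_eq_mul]
        _ ≤ b * ((b : ℝ) * κ ^ 2) := by
            have g3 : (C.card : ℝ) ≤ b := by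
              have := card_le_card hC
              rw [card_range] at this
              exact_mod_cast this
            gcongr
    exact_mod_cast g1
  have hN1r : N1 r ≤ (range (R + 1)).sup N1 := le_sup (mem_range.2 (by omega))
  have hNm : ((N - 1 : ℕ) : ℝ) = (N : ℝ) - 1 := by
    rw [Nat.cast_sub (by omega)]; simp
  have hN2' : (2 : ℝ) ≤ N := by
    have : 2 ≤ N := by omega
    exact_mod_cast this
  have key := hM r (mem_range.2 (by omega)) P hP (H + 1) (N - 1) W (by omega)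
    (by rw [hNm]; linarith) (by
      rw [hNm, pow_succ]
      have g1 := hbH.1
      have g2 : (0 : ℝ) < (b : ℝ) ^ H := by positivity
      nlinarith [mul_pos hκ g2, mul_le_mul_of_nonneg_left hbR (mul_pos hκ g2).le,
        mul_nonneg (mul_pos hκ g2).le (by linarith : (0:ℝ) ≤ (b:ℝ) - 2),
        mul_nonneg (mul_nonneg (mul_pos hκ g2).le (by linarith : (0:ℝ) ≤ (b:ℝ))) (by linarith : (0:ℝ) ≤ (b:ℝ) - 2)]) (by
      rw [hNm, pow_succ]
      have g1 := hbH.2
      calc (b : ℝ) ^ H * b ≤ (κ * N) * b := by gcongr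
        _ ≤ (2 * b * κ) * (N - 1) := by nlinarith [mul_pos hκ (by linarith : (0:ℝ) < (b:ℝ))])
    (WW_subset hC h1') rfl (noOv hC h1' h2')
  -- the exponents
  have hexp : (r : ℝ) * (((N - 1 : ℕ) : ℝ) / (b : ℝ) ^ (H + 1)) = tt b C w ((N : ℝ) - 1) := by
    rw [hr, hW, card_WWs hC h1' h3', hNm]
    unfold tt
    push_cast
    rw [sum_mul]
    refine sum_congr rfl fun c hc => ?_
    have g1 : (b : ℝ) ^ (H + 1) = (b : ℝ) ^ (H - w c) * ((b : ℝ) ^ w c * b) := by
      rw [← pow_succ, ← pow_add]; congr 1; have := hmax c hc; omega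
    have g2 : ((b - 1 : ℕ) : ℝ) = (b : ℝ) - 1 := by rw [Nat.cast_sub hb1]; simp
    rw [g1, g2]
    have g3 : (b : ℝ) ≠ 0 := by positivity
    field_simp
  rw [pow_zero, mul_one, Nat.factorial_zero, Nat.cast_one, div_one, hexp] at key
  have hdiff : |exp (-tt b C w ((N : ℝ) - 1)) - exp (-tt b C w N)| ≤ ε / 4 := by
    refine (exp_lip (tt_nonneg hb2 _ _ (by linarith)) (tt_nonneg hb2 _ _ hNp.le)).trans ?_
    unfold tt
    rw [← sum_sub_distrib]
    refine (abs_sum_le_sum_abs _ _).trans ?_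
    calc ∑ c ∈ C, |(1 - 1 / (b : ℝ)) * (((N : ℝ) - 1) / (b : ℝ) ^ w c) -
          (1 - 1 / (b : ℝ)) * ((N : ℝ) / (b : ℝ) ^ w c)| ≤ ∑ _c ∈ C, κ / N := by
          refine sum_le_sum fun c hc => ?_
          have g1 := (hw c hc).1
          have g2 : (0 : ℝ) < (b : ℝ) ^ w c := by positivity
          have g3 : (1 - 1 / (b : ℝ)) * (((N : ℝ) - 1) / (b : ℝ) ^ w c) -
              (1 - 1 / (b : ℝ)) * ((N : ℝ) / (b : ℝ) ^ w c) =
              -((1 - 1 / (b : ℝ)) * (1 / (b : ℝ) ^ w c)) := by ring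
          rw [g3, abs_neg, abs_of_nonneg (mul_nonneg (coef_nonneg hb2) (by positivity))]
          calc (1 - 1 / (b : ℝ)) * (1 / (b : ℝ) ^ w c) ≤ 1 * (1 / (b : ℝ) ^ w c) := by
                have := coef_le (b := b)
                gcongr
            _ ≤ κ / N := by
                rw [one_mul, div_le_div_iff₀ g2 hNp]
                linarith
      _ = C.card * (κ / N) := by rw [sum_const, nsmul_eq_mul]
      _ ≤ b * (κ / N) := by
          have g3 : (C.card : ℝ) ≤ b := by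
            have := card_le_card hC
            rw [card_range] at this
            exact_mod_cast this
          gcongr
      _ ≤ ε / 4 := by
          have g4 : 4 * b * κ / ε ≤ N := by
            refine hN3.trans ?_
            have : N3 ≤ N := by omega
            exact_mod_cast this
          rw [div_le_iff₀ hε] at g4
          rw [← mul_div_assoc, div_le_div_iff₀ hNp (by norm_num)]
          linarith
  -- the first place
  set E := {x : ℝ | ((range (N - 1)).filter (fun n => wd b (H + 1) n x ∈ W)).card = 0} with hE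
  set F := ⋃ c ∈ C, {x : ℝ | wd b (w c) 0 x = rp b (w c) c} with hF
  have hFr : P.real F ≤ ε / 4 := by
    refine (measureReal_biUnion_finset_le _ _).trans ?_
    calc ∑ c ∈ C, P.real {x : ℝ | wd b (w c) 0 x = rp b (w c) c} ≤ ∑ _c ∈ C, ε / (4 * b) := by
          refine sum_le_sum fun c hc => ?_
          exact h2 P hP (w c) N _ (by omega) hNL (hw c hc).1 (hw c hc).2
      _ = C.card * (ε / (4 * b)) := by rw [sum_const, nsmul_eq_mul]
      _ ≤ b * (ε / (4 * b)) := by
          have g3 : (C.card : ℝ) ≤ b := by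
            have := card_le_card hC
            rw [card_range] at this
            exact_mod_cast this
          gcongr
      _ = ε / 4 := by field_simp
  have hsub1 : {x | Free b C w N x} ⊆ E := by
    intro x hx
    exact ((free_iff hC h1' (by omega) x).1 hx).2
  have hsub2 : E ⊆ {x | Free b C w N x} ∪ F := by
    intro x hx
    by_cases hxF : x ∈ F
    · exact Or.inr hxF
    · refine Or.inl ((free_iff hC h1' (by omega) x).2 ⟨fun c hc he => hxF ?_, hx⟩)
      exact Set.mem_biUnion (show c ∈ (C : Set ℕ) from hc) he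
  have h5 : P.real {x | Free b C w N x} ≤ P.real E := measureReal_mono hsub1
  have h6 : P.real E ≤ P.real {x | Free b C w N x} + P.real F :=
    (measureReal_mono hsub2).trans (measureReal_union_le _ _)
  rw [abs_le] at key hdiff ⊢
  constructor <;> linarith [key.1, key.2, hdiff.1, hdiff.2]

lemma free_mono {b : ℕ} {C C' : Finset ℕ} {w w' : ℕ → ℕ} {N N' : ℕ} (hb : 1 ≤ b) (hCb : C' ⊆ range b)
    (hC : C' ⊆ C) (hw : ∀ c ∈ C', w c ≤ w' c) (hN : N' ≤ N) {x : ℝ} (h : Free b C w N x) :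
    Free b C' w' N' x := by
  intro c hc n hn he
  refine h c (hC hc) n (by omega) ?_
  obtain ⟨k, hk⟩ := Nat.exists_eq_add_of_le (hw c hc)
  rw [hk] at he
  rw [← wd_begin hb (w c) k n x, he, rp_div (mem_range.1 (hCb hc))]

end Pool.Agent.U433.RL
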