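import Pool.Agent.N639.FG.C3
import Pool.Agent.N639.FH.Sm

/-!
# Runs of digits and non-overlapping words

A run of at least `w c` digits `c` which does not begin at the first place is an occurrence of one of
the words `d c ^ (w c) u` with `d ≠ c`, where `u` is any word of length `H - w c`. If the lengths `w c`
do not differ much these words of length `H + 1` never overlap in more than half of their length.
-/

set_option autoImplicit false

namespace Pool.Agent.U433.RL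

open Finset Real MeasureTheory Filter Topology
open Pool.Agent.Y933.KD Pool.Agent.N639.FS Pool.Agent.N639.FG
open Pool.Agent.N639.FH (wd_end)

/-- the words `d c ^ (w c) u` of length `H + 1`, with `d ≠ c` and `u` arbitrary -/
def WW (b H : ℕ) (w : ℕ → ℕ) (c : ℕ) : Finset ℕ :=
  (((range b).erase c) ×ˢ range (b ^ (H - w c))).image
    fun p => (p.1 * b ^ w c + rp b (w c) c) * b ^ (H - w c) + p.2

lemma mem_WW {b H : ℕ} {w : ℕ → ℕ} {c v : ℕ} (hb : 1 ≤ b) :
    v ∈ WW b H w c ↔ ∃ d < b, d ≠ c ∧ v / b ^ (H - w c) = d * b ^ w c + rp b (w c) c := by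
  have hp : 0 < b ^ (H - w c) := by positivity
  unfold WW
  simp only [mem_image, mem_product, mem_erase, mem_range, Prod.exists]
  constructor
  · rintro ⟨d, u, ⟨⟨h1, h2⟩, h3⟩, rfl⟩
    refine ⟨d, h2, h1, ?_⟩
    rw [mul_comm _ (b ^ (H - w c)), Nat.mul_add_div hp, Nat.div_eq_of_lt h3, Nat.add_zero]
  · rintro ⟨d, h1, h2, h3⟩
    refine ⟨d, v % b ^ (H - w c), ⟨⟨h2, h1⟩, Nat.mod_lt _ hp⟩, ?_⟩
    rw [← h3, mul_comm]
    exact Nat.div_add_mod _ _

lemma card_WW {b H : ℕ} {w : ℕ → ℕ} {c : ℕ} (hc : c < b) :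
    (WW b H w c).card = (b - 1) * b ^ (H - w c) := by
  have hb : 1 ≤ b := by omega
  have hp : 0 < b ^ (H - w c) := by positivity
  have hq : 0 < b ^ w c := by positivity
  unfold WW
  rw [card_image_of_injOn, card_product, card_erase_of_mem (mem_range.2 hc), card_range, card_range]
  rintro ⟨d, u⟩ h ⟨d', u'⟩ h' he
  simp only [coe_product, Set.mem_prod, mem_coe, mem_range] at h h'
  simp only at he
  have h1 := congrArg (· / b ^ (H - w c)) he
  simp only [mul_comm _ (b ^ (H - w c)), Nat.mul_add_div hp, Nat.div_eq_of_lt h.2,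
    Nat.div_eq_of_lt h'.2, Nat.add_zero] at h1
  have h2 : u = u' := by
    rw [h1] at he
    exact Nat.add_left_cancel he
  have h3 : d * b ^ w c = d' * b ^ w c := Nat.add_right_cancel h1
  have h4 : d = d' := Nat.eq_of_mul_eq_mul_right hq h3
  rw [h2, h4]

lemma rp_split (b : ℕ) (w k d : ℕ) : rp b (w + k) d = b ^ k * rp b w d + rp b k d := by
  unfold rp
  rw [Nat.add_comm w k, sum_range_add, mul_sum, Nat.add_comm]
  congr 1
  refine sum_congr rfl fun i _ => ?_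
  rw [pow_add]
  ring

lemma rp_one (b d : ℕ) : rp b 1 d = d := by
  simp [rp]

lemma rp_two (b d : ℕ) : rp b 2 d = d * b + d := by
  simp [rp, sum_range_succ]
  ring

/-- the two first digits -/
lemma top2 {b H : ℕ} {w : ℕ → ℕ} {c v : ℕ} (hc : c < b) (h : v ∈ WW b H w c) (h1 : 1 ≤ w c)
    (h2 : w c ≤ H) : ∃ d < b, d ≠ c ∧ v / b ^ (H - 1) = d * b + c := by
  have hb : 1 ≤ b := by omega
  obtain ⟨d, hd, hdc, he⟩ := (mem_WW hb).1 h
  refine ⟨d, hd, hdc, ?_⟩
  have h3 : b ^ (H - 1) = b ^ (H - w c) * b ^ (w c - 1) := by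
    rw [← pow_add]; congr 1; omega
  rw [h3, ← Nat.div_div_eq_div_mul, he]
  have h4 : w c = 1 + (w c - 1) := by omega
  have h5 : d * b ^ w c = b ^ (w c - 1) * (d * b) := by
    conv_lhs => rw [h4]
    rw [pow_add, pow_one]; ring
  rw [h5, Nat.mul_add_div (by positivity)]
  congr 1
  conv_lhs => rw [h4]
  rw [Nat.add_sub_cancel_left, rp_div hc, rp_one]

/-- two digits in the run -/
lemma mid2 {b H e : ℕ} {w : ℕ → ℕ} {c v : ℕ} (hc : c < b) (h : v ∈ WW b H w c) (he : 1 ≤ e)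
    (h1 : e + 1 ≤ w c) (h2 : w c ≤ H) : (v / b ^ (H - 1 - e)) % b ^ 2 = c * b + c := by
  have hb : 1 ≤ b := by omega
  obtain ⟨d, hd, hdc, hv⟩ := (mem_WW hb).1 h
  have h3 : b ^ (H - 1 - e) = b ^ (H - w c) * b ^ (w c - 1 - e) := by
    rw [← pow_add]; congr 1; omega
  rw [h3, ← Nat.div_div_eq_div_mul, hv]
  have h4 : w c = (e - 1 + 2) + (w c - 1 - e) := by omega
  have h5 : d * b ^ w c = b ^ (w c - 1 - e) * (d * b ^ (e - 1 + 2)) := by
    conv_lhs => rw [h4]
    rw [pow_add]; ring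
  have h6 : rp b (w c) c / b ^ (w c - 1 - e) = rp b (e - 1 + 2) c := by
    have := rp_div hc (e - 1 + 2) (w c - 1 - e)
    rwa [← h4] at this
  rw [h5, Nat.mul_add_div (by positivity), h6, rp_split, rp_two, pow_add]
  have h7 : d * (b ^ (e - 1) * b ^ 2) + (b ^ 2 * rp b (e - 1) c + (c * b + c)) =
      b ^ 2 * (d * b ^ (e - 1) + rp b (e - 1) c) + (c * b + c) := by ring
  rw [h7, Nat.mul_add_mod, Nat.mod_eq_of_lt]
  have := rp_lt hc 2
  rwa [rp_two] at this

lemma pair_inj {b c c' d' : ℕ} (hc : c < b) (hc' : c' < b) (h : c * b + c = d' * b + c') :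
    c = c' ∧ c = d' := by
  have h1 : (c * b + c) % b = (d' * b + c') % b := by rw [h]
  rw [mul_comm c b, mul_comm d' b, Nat.mul_add_mod, Nat.mul_add_mod, Nat.mod_eq_of_lt hc,
    Nat.mod_eq_of_lt hc'] at h1
  refine ⟨h1, ?_⟩
  rw [h1] at h
  rw [h1]
  exact Nat.eq_of_mul_eq_mul_right (by omega : 0 < b) (Nat.add_right_cancel h)

/-- the words of all digits of `C` never overlap in more than half of their length -/
lemma noOv {b H : ℕ} {w : ℕ → ℕ} {C : Finset ℕ} (hC : C ⊆ range b) (h1 : ∀ c ∈ C, w c ≤ H)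
    (h2 : ∀ c ∈ C, H + 3 ≤ 2 * w c) : NoOv b (H + 1) (C.biUnion (WW b H w)) := by
  intro v hv v' hv' e he1 he2 heq
  obtain ⟨c, hcC, hv⟩ := mem_biUnion.1 hv
  obtain ⟨c', hcC', hv'⟩ := mem_biUnion.1 hv'
  have hc := mem_range.1 (hC hcC)
  have hc' := mem_range.1 (hC hcC')
  have hb : 1 ≤ b := by omega
  have a1 := h1 c hcC
  have a2 := h2 c hcC
  have a3 := h1 c' hcC'
  have a4 := h2 c' hcC'
  obtain ⟨d', hd', hdc', ht⟩ := top2 hc' hv' (by omega) a3
  have hm := mid2 (e := e) hc hv he1 (by omega) a1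
  have h5 := congrArg (· / b ^ (H - 1 - e)) heq
  have h6 : H + 1 - e = (H - 1 - e) + 2 := by omega
  have h7 : b ^ (H + 1 - e) = b ^ (H - 1 - e) * b ^ 2 := by rw [h6, pow_add]
  rw [h7, Nat.mod_mul_right_div_self, hm, Nat.div_div_eq_div_mul, ← pow_add] at h5
  have h8 : e + (H - 1 - e) = H - 1 := by omega
  rw [h8, ht] at h5
  obtain ⟨g1, g2⟩ := pair_inj hc hc' h5
  exact hdc' (by rw [← g2, g1])

lemma disj_WW {b H : ℕ} {w : ℕ → ℕ} {C : Finset ℕ} (hC : C ⊆ range b)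
    (h1 : ∀ c ∈ C, w c ≤ H) (h2 : ∀ c ∈ C, 1 ≤ w c) :
    (C : Set ℕ).PairwiseDisjoint (WW b H w) := by
  intro c hc c' hc' hne
  refine disjoint_left.2 fun v hv hv' => hne ?_
  have g := mem_range.1 (hC hc)
  have g' := mem_range.1 (hC hc')
  obtain ⟨d, _, _, h3⟩ := top2 g hv (h2 c hc) (h1 c hc)
  obtain ⟨d', _, _, h4⟩ := top2 g' hv' (h2 c' hc') (h1 c' hc')
  rw [h3] at h4
  have h5 := congrArg (· % b) h4
  simp only [mul_comm _ b, Nat.mul_add_mod, Nat.mod_eq_of_lt g, Nat.mod_eq_of_lt g'] at h5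
  exact h5

lemma card_WWs {b H : ℕ} {w : ℕ → ℕ} {C : Finset ℕ} (hC : C ⊆ range b)
    (h1 : ∀ c ∈ C, w c ≤ H) (h2 : ∀ c ∈ C, 1 ≤ w c) :
    (C.biUnion (WW b H w)).card = ∑ c ∈ C, (b - 1) * b ^ (H - w c) := by
  rw [card_biUnion (disj_WW hC h1 h2)]
  exact sum_congr rfl fun c hc => card_WW (mem_range.1 (hC hc))

lemma WW_subset {b H : ℕ} {w : ℕ → ℕ} {C : Finset ℕ} (hC : C ⊆ range b)
    (h1 : ∀ c ∈ C, w c ≤ H) : C.biUnion (WW b H w) ⊆ range (b ^ (H + 1)) := by
  intro v hv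
  obtain ⟨c, hcC, hv⟩ := mem_biUnion.1 hv
  have hc := mem_range.1 (hC hcC)
  have hb : 1 ≤ b := by omega
  obtain ⟨d, hd, _, he⟩ := (mem_WW hb).1 hv
  have a1 := h1 c hcC
  have h3 : v / b ^ (H - w c) < b ^ (w c + 1) := by
    rw [he]
    have := rp_lt hc (w c)
    calc d * b ^ w c + rp b (w c) c < d * b ^ w c + b ^ w c := by omega
      _ = (d + 1) * b ^ w c := by ring
      _ ≤ b * b ^ w c := Nat.mul_le_mul_right _ hd
      _ = b ^ (w c + 1) := by rw [pow_succ]; ring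
  rw [Nat.div_lt_iff_lt_mul (by positivity), ← pow_add] at h3
  rw [mem_range]
  have h4 : w c + 1 + (H - w c) = H + 1 := by omega
  rwa [h4] at h3

/-- no run of `w c` digits `c ∈ C` begins at one of the first `N` places -/
def Free (b : ℕ) (C : Finset ℕ) (w : ℕ → ℕ) (N : ℕ) (x : ℝ) : Prop :=
  ∀ c ∈ C, ∀ n < N, wd b (w c) n x ≠ rp b (w c) c

lemma wd_succ_div {b : ℕ} (hb : 1 ≤ b) (w n : ℕ) (x : ℝ) :
    wd b (w + 1) n x = wd b 1 n x * b ^ w + wd b w (n + 1) x := by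
  have h1 := wd_begin hb 1 w n x
  have h2 := wd_end hb 1 w n x
  rw [Nat.add_comm 1 w] at h1 h2
  rw [← h1, ← h2, mul_comm]
  exact (Nat.div_add_mod _ _).symm

lemma wd_mem_WW {b H : ℕ} {w : ℕ → ℕ} {c : ℕ} (hc : c < b) (h1 : w c ≤ H) (n : ℕ) (x : ℝ) :
    wd b (H + 1) n x ∈ WW b H w c ↔ wd b 1 n x ≠ c ∧ wd b (w c) (n + 1) x = rp b (w c) c := by
  have hb : 1 ≤ b := by omega
  rw [mem_WW hb]
  have h2 : H + 1 = (w c + 1) + (H - w c) := by omega
  have h3 : wd b (H + 1) n x / b ^ (H - w c) = wd b 1 n x * b ^ w c + wd b (w c) (n + 1) x := by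
    rw [h2, wd_begin hb, wd_succ_div hb]
  rw [h3]
  have h4 : wd b 1 n x < b := by simpa using wd_lt hb 1 n x
  have h5 := wd_lt hb (w c) (n + 1) x
  have h6 := rp_lt hc (w c)
  constructor
  · rintro ⟨d, hd, hdc, he⟩
    have h7 := congrArg (· / b ^ w c) he
    simp only [mul_comm _ (b ^ w c), Nat.mul_add_div (show 0 < b ^ w c by positivity),
      Nat.div_eq_of_lt h5, Nat.div_eq_of_lt h6, Nat.add_zero] at h7
    refine ⟨by rw [h7]; exact hdc, ?_⟩
    rw [h7] at he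
    exact Nat.add_left_cancel he
  · rintro ⟨h7, h8⟩
    exact ⟨_, h4, h7, by rw [h8]⟩

/-- a run which does not begin at the first place is preceded by another digit -/
lemma free_iff {b H : ℕ} {w : ℕ → ℕ} {C : Finset ℕ} (hC : C ⊆ range b) (h1 : ∀ c ∈ C, w c ≤ H)
    {N : ℕ} (hN : 1 ≤ N) (x : ℝ) :
    Free b C w N x ↔ (∀ c ∈ C, wd b (w c) 0 x ≠ rp b (w c) c) ∧
      ((range (N - 1)).filter (fun n => wd b (H + 1) n x ∈ C.biUnion (WW b H w))).card = 0 := by
  rw [card_eq_zero, filter_eq_empty_iff]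
  constructor
  · intro h
    refine ⟨fun c hc => h c hc 0 (by omega), fun n hn hmem => ?_⟩
    obtain ⟨c, hc, hv⟩ := mem_biUnion.1 hmem
    have h2 := ((wd_mem_WW (mem_range.1 (hC hc)) (h1 c hc) n x).1 hv).2
    rw [mem_range] at hn
    exact h c hc (n + 1) (by omega) h2
  · rintro ⟨h2, h3⟩ c hc n
    have hcb := mem_range.1 (hC hc)
    have hb : 1 ≤ b := by omega
    induction n with
    | zero => exact fun _ => h2 c hc
    | succ n ih =>
      intro hn he
      by_cases hd : wd b 1 n x = c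
      · refine ih (by omega) ?_
        have h4 : wd b (w c + 1) n x = rp b (w c + 1) c := by
          rw [wd_succ_div hb, hd, he, Nat.add_comm (w c) 1, rp_split, rp_one, mul_comm]
        rw [← wd_begin hb (w c) 1 n x, h4, rp_div hcb]
      · exact h3 (mem_range.2 (by omega : n < N - 1))
          (mem_biUnion.2 ⟨c, hc, (wd_mem_WW hcb (h1 c hc) n x).2 ⟨hd, he⟩⟩)

end Pool.Agent.U433.RL
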